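import Pool.Agent.Lib.MP_23bd8d_gt.Final

namespace Pool.Agent.Results.MP_23bd8d_gt.Consistent

open Pool.Agent.Shared.Forcing Pool.Agent.Lib.MP_23bd8d_gt

/-- There is a model of ZFC containing a Tychonoff space `(X, T)` such that, in `C_p(X) = (C, S)`,
the closure of every discrete set is Frechet-Urysohn while `C_p(X)` is not. -/
theorem result :
    ∃ (M : Type 2) (E : M → M → Prop), ModelZFC E ∧ ∃ w R L X T C S : M,
      IsOmega E w ∧ IsReal E w R L ∧ IsTop E X T ∧ Tych E X T R L ∧ IsCp E X T R L C S ∧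
      (∀ D Y, Sub E D C → Disc E S D → (∀ f, E f Y ↔ E f C ∧ InCl E S f D) → FU E w S Y) ∧
      ¬ FU E w S C :=
  @model_of_inacc Cardinal.univ.{0, 1} ⟨Cardinal.IsInaccessible.univ⟩

end Pool.Agent.Results.MP_23bd8d_gt.Consistent
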