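import Pool.Agent.Lib.MP_23bd8d_gt.Cover

/-!
MP_23bd8d_gt, partial result: under the hypothesis of Q1 the closure of a set of functions is
Frechet-Urysohn unless a regular uncountable cardinal not above its size separates the sizes of the
discrete sets of functions from the covering number of a finite power.
-/

namespace Pool.Agent.Results.MP_23bd8d_gt.Cover

open Pool.Agent.Lib.MP_23bd8d_gt

theorem result (X : Type) [TopologicalSpace X]
    (H : ∀ D : Set {f : X → ℝ | Continuous f},
      DiscreteTopology D → FrechetUrysohnSpace (closure D))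
    (A : Set {f : X → ℝ | Continuous f})
    (hS : ∀ κ : Cardinal, κ ≤ Cardinal.mk A → κ.IsRegular → Cardinal.aleph0 < κ →
      ∀ (n : ℕ) (C : Set (Set (Fin n → X))), (∀ U ∈ C, IsOpen U) → ⋃₀ C = Set.univ →
      (∀ C' ⊆ C, ⋃₀ C' = Set.univ → κ ≤ Cardinal.mk C') →
      ∃ D : Set {f : X → ℝ | Continuous f}, DiscreteTopology D ∧ κ ≤ Cardinal.mk D) :
    FrechetUrysohnSpace (closure A) :=
  fu_closure_of_cover H A hS

end Pool.Agent.Results.MP_23bd8d_gt.Cover
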