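import Pool.Agent.Lib.MP_23bd8d_gt.Punct

/-!
MP_23bd8d_gt, partial result: Q1 fails for some open subspace of a space whose function space is
Frechet-Urysohn if and only if some such space has a gap between the sizes of the discrete subsets
of its finite powers and its hereditary covering number.
-/

namespace Pool.Agent.Results.MP_23bd8d_gt.Punctured

open Pool.Agent.Lib.MP_23bd8d_gt

theorem result : List.TFAE
    [∃ (K : Type) (_ : TopologicalSpace K) (p : K), T35Space K ∧
      FrechetUrysohnSpace {f : K → ℝ | Continuous f} ∧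
      (∀ D : Set {f : ({p}ᶜ : Set K) → ℝ | Continuous f},
        DiscreteTopology D → FrechetUrysohnSpace (closure D)) ∧
      ¬ FrechetUrysohnSpace {f : ({p}ᶜ : Set K) → ℝ | Continuous f},
    ∃ (K : Type) (_ : TopologicalSpace K) (X : Set K), T35Space K ∧
      FrechetUrysohnSpace {f : K → ℝ | Continuous f} ∧ IsOpen X ∧
      (∀ D : Set {f : X → ℝ | Continuous f},
        DiscreteTopology D → FrechetUrysohnSpace (closure D)) ∧
      ¬ FrechetUrysohnSpace {f : X → ℝ | Continuous f},
    ∃ (K : Type) (_ : TopologicalSpace K) (κ : Cardinal), T35Space K ∧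
      FrechetUrysohnSpace {f : K → ℝ | Continuous f} ∧ κ.IsRegular ∧ Cardinal.aleph0 < κ ∧
      (∀ (n : ℕ) (D : Set (Fin n → K)), DiscreteTopology D → Cardinal.mk D < κ) ∧
      ∃ C : Set (Set K), (∀ U ∈ C, IsOpen U) ∧
        ∀ C' ⊆ C, ⋃₀ C' = ⋃₀ C → κ ≤ Cardinal.mk C'] := by
  tfae_have 1 → 2 := fun ⟨K, t, p, q, a, b, c⟩ => ⟨K, t, _, q, a, isOpen_compl_singleton, b, c⟩
  tfae_have 2 → 3 := fun ⟨_, _, _, _, a, b, c, d⟩ => gap_of_open b a c d
  tfae_have 3 → 1 := fun ⟨_, _, _, _, a, b, c, d, _, e, f⟩ => punct_of_gap a b c d e f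
  tfae_finish

end Pool.Agent.Results.MP_23bd8d_gt.Punctured
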