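import Pool.Agent.Lib.MP_23bd8d_gt.Wide

/-!
MP_23bd8d_gt, partial result: a counterexample to Q1 with at most `ℵ₁` points exists if and only if
the hypothesis of Q1 fails to control closures of sets of at most `ℵ₁` functions on some space of
any size, if and only if there is a strong S-space.
-/

namespace Pool.Agent.Results.MP_23bd8d_gt.StrongS

open Pool.Agent.Lib.MP_23bd8d_gt

theorem result : List.TFAE
    [∃ (X : Type) (_ : TopologicalSpace X), T35Space X ∧ Cardinal.mk X ≤ Cardinal.aleph 1 ∧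
      (∀ D : Set {f : X → ℝ | Continuous f},
        DiscreteTopology D → FrechetUrysohnSpace (closure D)) ∧
      ¬ FrechetUrysohnSpace {f : X → ℝ | Continuous f},
    ∃ (X : Type) (_ : TopologicalSpace X), T35Space X ∧
      (∀ D : Set {f : X → ℝ | Continuous f},
        DiscreteTopology D → FrechetUrysohnSpace (closure D)) ∧
      ∃ A : Set {f : X → ℝ | Continuous f}, Cardinal.mk A ≤ Cardinal.aleph 1 ∧
        ¬ FrechetUrysohnSpace (closure A),
    ∃ (Y : Type) (_ : TopologicalSpace Y), T35Space Y ∧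
      (∀ (n : ℕ) (s : Set (Fin n → Y)), TopologicalSpace.SeparableSpace s) ∧
      ¬ HereditarilyLindelofSpace Y] := by
  tfae_have 1 → 2 := fun ⟨X, t, p, a, b, c⟩ => ⟨X, t, p, b, exists_small a c⟩
  tfae_have 2 → 3 := fun ⟨_, _, _, a, _, b, c⟩ =>
    let ⟨Y, t, p, q, r⟩ := strongS_of_small a b c
    ⟨Y, t, p, fun n => hs_iff.1 (q n), r⟩
  tfae_have 3 → 1 := fun ⟨_, _, _, a, b⟩ => of_strongS (fun n => hs_iff.2 (a n)) b
  tfae_finish

end Pool.Agent.Results.MP_23bd8d_gt.StrongS
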